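import Pool.Agent.Y252.CG.Rhoa
import Pool.Agent.Y288.CB.KB3

/-!
# Closed 3-braids (project CB3 of helper472): bound of the kernel, `χ` near `[2 π / 3, π]`
-/

set_option autoImplicit false

namespace Pool.Agent.Y252.CG

open Filter Finset Topology
open Pool.Agent.W711.HT Pool.Agent.Y472 Pool.Agent.Y288.CB
open scoped Real

/-- KAZ -/
theorem kaz : Pool.Agent.Y472.S_KAZ := by
  intro h1 h2 h3 ε hε
  obtain ⟨ρs, hρ0, hρ1, -, -, -, R4, -, -⟩ := h2
  have hdelta : ∀ N d : ℕ, 0 < N → d ≤ (N - 1) / 2 → (0 : ℝ) ≤ d / N ∧ (d : ℝ) / N ≤ 1 / 2 := by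
    intro N d hN hd
    have hNR : (0 : ℝ) < N := by exact_mod_cast hN
    refine ⟨by positivity, ?_⟩
    rw [div_le_div_iff₀ hNR (by norm_num)]
    have : d * 2 ≤ 1 * N := by omega
    exact_mod_cast this
  obtain ⟨τ, hτ, H⟩ := term h1 (ε / 2) (half_pos hε)
  refine ⟨τ, hτ, ?_⟩
  filter_upwards [H, ev_N (ε := ε / 2) (half_pos hε), eventually_gt_atTop 0] with N H hN hN0
  intro ψ ψ' χ a1 a2 a3 a4 a5 a6 a7
  have hNR : (0 : ℝ) < N := by exact_mod_cast hN0
  unfold kh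
  have hterm : ∀ d ∈ range ((N - 1) / 2 + 1),
      ‖Rp N d ψ * Rp N d ψ' * Tg N d χ / (Sd N d : ℂ) ^ 2‖ ≤
        Real.exp (N * (157 / 200 + ε / 2)) := by
    intro d hd
    have hd' : d ≤ (N - 1) / 2 := by rw [Finset.mem_range] at hd; omega
    refine (H d hd' ψ ψ' χ a1 a2 a3 a4 a6 a7).trans (Real.exp_le_exp.2 ?_)
    obtain ⟨b1, b2⟩ := hdelta N d hN0 hd'
    have e1 := R4 (d / N) ψ.re b1 (by linarith) a1
    have e2 := R4 (d / N) ψ'.re b1 (by linarith) a3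
    have e3 := h3 (d / N) χ.re b1 b2 a5 a6
    apply mul_le_mul_of_nonneg_left _ hNR.le
    linarith
  refine (norm_sum_le_of_le _ hterm).trans ?_
  rw [Finset.sum_const, Finset.card_range, nsmul_eq_mul]
  have h3 : (((N - 1) / 2 + 1 : ℕ) : ℝ) ≤ N := by
    have : (N - 1) / 2 + 1 ≤ N := by omega
    exact_mod_cast this
  calc (((N - 1) / 2 + 1 : ℕ) : ℝ) * Real.exp (N * (157 / 200 + ε / 2)) ≤
      Real.exp (N * (ε / 2)) * Real.exp (N * (157 / 200 + ε / 2)) := by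
        gcongr
        exact h3.trans hN
    _ = Real.exp (N * (157 / 200 + ε)) := by
        rw [← Real.exp_add]; congr 1; ring

end Pool.Agent.Y252.CG
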