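import Pool.Agent.Y252.CG.Lob
import Pool.Agent.Y472.G.Defs

/-!
# Closed 3-braids (project CB3 of helper472): the integral inequality RHOA
-/

set_option autoImplicit false

namespace Pool.Agent.Y252.CG

open Filter Finset Topology MeasureTheory GapVol EvenVol EvenVol.LobIneq
open Pool.Agent.W711.HT Pool.Agent.W688.HT Pool.Agent.Y105.CB
open Pool.Agent.W259.Nona (cos_le_T4 cos_ge_T6)
open scoped Real

/-- the function to be bounded; `e = π/2 - π δ` -/
noncomputable def KK (f e : ℝ) : ℝ :=
  4 * lob e - 2 * lob (e + π / 2) + lob (f - e) - lob (e + f)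

/-- its derivative -/
noncomputable def kk (f t : ℝ) : ℝ := 4 * g t - 2 * g (π / 2 + t) - g (f - t) - g (f + t)

lemma kk_int (f a b : ℝ) : IntervalIntegrable (kk f) volume a b := by
  unfold kk
  exact ((((g_int a b).const_mul 4).sub ((g_int_add (π / 2) a b).const_mul 2)).sub
    (g_int_sub f a b)).sub (g_int_add f a b)

lemma KK_sub (f a b : ℝ) : KK f b - KK f a = ∫ t in a..b, kk f t := by
  unfold kk
  rw [intervalIntegral.integral_sub ((((g_int a b).const_mul 4).sub
      ((g_int_add (π / 2) a b).const_mul 2)).sub (g_int_sub f a b)) (g_int_add f a b),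
    intervalIntegral.integral_sub (((g_int a b).const_mul 4).sub
      ((g_int_add (π / 2) a b).const_mul 2)) (g_int_sub f a b),
    intervalIntegral.integral_sub ((g_int a b).const_mul 4)
      ((g_int_add (π / 2) a b).const_mul 2),
    intervalIntegral.integral_const_mul, intervalIntegral.integral_const_mul,
    intervalIntegral.integral_comp_add_left g (π / 2),
    intervalIntegral.integral_comp_add_left g f, intervalIntegral.integral_comp_sub_left g f,
    ← lob_sub, ← lob_sub, ← lob_sub, ← lob_sub]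
  unfold KK
  rw [add_comm a (π / 2), add_comm b (π / 2), add_comm a f, add_comm b f]
  ring

/-- the duplication formula -/
lemma lob_two (x : ℝ) : lob (2 * x) = 2 * lob x + 2 * lob (x + π / 2) := by
  have h1 : ∫ t in (0:ℝ)..x, g (2 * t) = 2⁻¹ * lob (2 * x) := by
    rw [intervalIntegral.integral_comp_mul_left g (by norm_num : (2:ℝ) ≠ 0), mul_zero, ← lob_eq,
      smul_eq_mul]
  have h2 : ∫ t in (0:ℝ)..x, g (2 * t) = ∫ t in (0:ℝ)..x, (g t + g (π / 2 + t)) := by
    apply intervalIntegral.integral_congr_ae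
    filter_upwards [sin_ae_ne, ae_add (π / 2)] with t h3 h4 _
    rw [g_eq_abs, g_eq_abs, g_eq_abs, Real.sin_two_mul]
    have e : Real.sin (π / 2 + t) = Real.cos t := by
      rw [add_comm, Real.sin_add_pi_div_two]
    rw [e] at h4 ⊢
    rw [show 2 * (2 * Real.sin t * Real.cos t) = (2 * Real.sin t) * (2 * Real.cos t) by ring,
      abs_mul, Real.log_mul (by positivity) (by positivity)]
    ring
  rw [h2, intervalIntegral.integral_add (g_int 0 x) (g_int_add (π / 2) 0 x),
    intervalIntegral.integral_comp_add_left g (π / 2), ← lob_sub, ← lob_sub, add_zero, lob_half,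
    lob_zero', add_comm (π / 2) x] at h1
  linarith

lemma KK_eq (f e : ℝ) : KK f e = 6 * lob e - lob (2 * e) + lob (f - e) - lob (e + f) := by
  unfold KK
  have := lob_two e
  linarith

/-- pointwise formula -/
lemma kk_eq (f : ℝ) : ∀ᵐ t : ℝ, 0 < 1 - Real.cos (2 * t) ∧ 0 < 1 + Real.cos (2 * t) ∧
    0 < |Real.cos (2 * t) - Real.cos (2 * f)| ∧
    kk f t = Real.log (|Real.cos (2 * t) - Real.cos (2 * f)| * (1 + Real.cos (2 * t))) -
      Real.log ((1 - Real.cos (2 * t)) ^ 2) := by
  filter_upwards [sin_ae_ne, ae_add (π / 2), ae_add f, ae_sub f] with t h1 h2 h3 h4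
  have e : Real.sin (π / 2 + t) = Real.cos t := by
    rw [add_comm, Real.sin_add_pi_div_two]
  have a1 : 1 - Real.cos (2 * t) = 2 * Real.sin t ^ 2 := by
    rw [Real.cos_two_mul, Real.cos_sq']; ring
  have a2 : 1 + Real.cos (2 * t) = 2 * Real.cos t ^ 2 := by
    rw [Real.cos_two_mul]; ring
  have a3 : Real.cos (2 * t) - Real.cos (2 * f) =
      2 * (Real.sin (f + t) * Real.sin (f - t)) := by
    rw [Real.sin_add, Real.sin_sub, Real.cos_two_mul, Real.cos_two_mul]
    have b1 := Real.sin_sq_add_cos_sq t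
    have b2 := Real.sin_sq_add_cos_sq f
    have b3 : Real.sin t ^ 2 = 1 - Real.cos t ^ 2 := by linarith
    have b4 : Real.sin f ^ 2 = 1 - Real.cos f ^ 2 := by linarith
    have : 2 * ((Real.sin f * Real.cos t + Real.cos f * Real.sin t) *
        (Real.sin f * Real.cos t - Real.cos f * Real.sin t)) =
        2 * (Real.sin f ^ 2 * Real.cos t ^ 2 - Real.cos f ^ 2 * Real.sin t ^ 2) := by ring
    rw [this, b3, b4]
    ring
  rw [e] at h2
  have p1 : 0 < |2 * Real.sin t| := abs_pos.2 (mul_ne_zero two_ne_zero h1)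
  have p2 : 0 < |2 * Real.cos t| := abs_pos.2 (mul_ne_zero two_ne_zero h2)
  have p3 : 0 < |2 * Real.sin (f + t)| := abs_pos.2 (mul_ne_zero two_ne_zero h3)
  have p4 : 0 < |2 * Real.sin (f - t)| := abs_pos.2 (mul_ne_zero two_ne_zero h4)
  have q1 : 0 < 1 - Real.cos (2 * t) := by rw [a1]; positivity
  have q2 : 0 < 1 + Real.cos (2 * t) := by rw [a2]; positivity
  have q3 : 0 < |Real.cos (2 * t) - Real.cos (2 * f)| := by
    rw [a3]; exact abs_pos.2 (mul_ne_zero two_ne_zero (mul_ne_zero h3 h4))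
  refine ⟨q1, q2, q3, ?_⟩
  unfold kk
  rw [g_eq_abs, g_eq_abs, g_eq_abs, g_eq_abs, e]
  have c1 : Real.log ((1 - Real.cos (2 * t)) ^ 2) = 4 * Real.log |2 * Real.sin t| - Real.log 4 := by
    have : (1 - Real.cos (2 * t)) ^ 2 = |2 * Real.sin t| ^ 4 / 4 := by
      rw [a1, show |2 * Real.sin t| ^ 4 = (|2 * Real.sin t| ^ 2) ^ 2 by ring, sq_abs]
      ring
    rw [this, Real.log_div (by positivity) (by norm_num), Real.log_pow]
    norm_num
  have c2 : Real.log (|Real.cos (2 * t) - Real.cos (2 * f)| * (1 + Real.cos (2 * t))) =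
      Real.log |2 * Real.sin (f + t)| + Real.log |2 * Real.sin (f - t)| +
      2 * Real.log |2 * Real.cos t| - Real.log 4 := by
    have : |Real.cos (2 * t) - Real.cos (2 * f)| * (1 + Real.cos (2 * t)) =
        |2 * Real.sin (f + t)| * |2 * Real.sin (f - t)| * |2 * Real.cos t| ^ 2 / 4 := by
      rw [a2, a3, sq_abs, ← abs_mul]
      have : 2 * Real.sin (f + t) * (2 * Real.sin (f - t)) =
        2 * (2 * (Real.sin (f + t) * Real.sin (f - t))) := by ring
      rw [this, abs_mul 2 (2 * _), abs_two]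
      ring
    rw [this, Real.log_div (by positivity) (by norm_num), Real.log_mul (by positivity)
      (by positivity), Real.log_mul p3.ne' p4.ne', Real.log_pow]
    norm_num
  rw [c1, c2]
  ring

/-- the constant -/
noncomputable def fc : ℝ := 2643 / 5000

lemma D_bounds : 4912 / 10000 ≤ Real.cos (2 * fc) ∧ Real.cos (2 * fc) ≤ 4933 / 10000 := by
  have h1 := cos_le_T4 (2 * fc) (by unfold fc; norm_num)
  have h2 := cos_ge_T6 (2 * fc) (by unfold fc; norm_num)
  constructor
  · refine le_trans ?_ h2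
    unfold fc; norm_num
  · refine h1.trans ?_
    unfold fc; norm_num

lemma kk_A : ∀ᵐ t : ℝ, t ∈ Set.Icc (47 / 100) (π / 2) → kk fc t ≤ 0 := by
  filter_upwards [kk_eq fc] with t ⟨q1, q2, q3, q4⟩ ht
  obtain ⟨d1, d2⟩ := D_bounds
  have h1 : Real.cos (2 * t) ≤ Real.cos (94 / 100) :=
    Real.cos_le_cos_of_nonneg_of_le_pi (by norm_num) (by linarith [ht.2]) (by linarith [ht.1])
  have h2 : Real.cos (94 / 100) ≤ 5908 / 10000 := by
    refine (cos_le_T4 _ (by norm_num)).trans ?_
    norm_num
  set C := Real.cos (2 * t)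
  set D := Real.cos (2 * fc)
  rw [q4, sub_nonpos]
  apply Real.log_le_log (by positivity)
  rcases le_total D C with h | h
  · rw [abs_of_nonneg (by linarith)]
    nlinarith
  · rw [abs_of_nonpos (by linarith)]
    nlinarith [sq_nonneg (C - (1 + D) / 4)]

lemma kk_B : ∀ᵐ t : ℝ, t ∈ Set.Icc 0 (465 / 1000) → 0 ≤ kk fc t := by
  filter_upwards [kk_eq fc] with t ⟨q1, q2, q3, q4⟩ ht
  obtain ⟨d1, d2⟩ := D_bounds
  have h1 : Real.cos (93 / 100) ≤ Real.cos (2 * t) :=
    Real.cos_le_cos_of_nonneg_of_le_pi (by linarith [ht.1]) (by linarith [Real.pi_gt_three])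
      (by linarith [ht.2])
  have h2 : 5978 / 10000 ≤ Real.cos (93 / 100) := by
    refine le_trans ?_ (cos_ge_T6 _ (by norm_num))
    norm_num
  set C := Real.cos (2 * t)
  set D := Real.cos (2 * fc)
  rw [q4, sub_nonneg]
  apply Real.log_le_log (by positivity)
  rw [abs_of_nonneg (by linarith)]
  nlinarith

lemma kk_C : ∀ᵐ t : ℝ, t ∈ Set.Icc (465 / 1000) (π / 2) → kk fc t ≤ 8 / 100 := by
  filter_upwards [kk_eq fc] with t ⟨q1, q2, q3, q4⟩ ht
  obtain ⟨d1, d2⟩ := D_bounds
  have h1 : Real.cos (2 * t) ≤ Real.cos (93 / 100) :=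
    Real.cos_le_cos_of_nonneg_of_le_pi (by norm_num) (by linarith [ht.2]) (by linarith [ht.1])
  have h2 : Real.cos (93 / 100) ≤ 5988 / 10000 := by
    refine (cos_le_T4 _ (by norm_num)).trans ?_
    norm_num
  set C := Real.cos (2 * t)
  set D := Real.cos (2 * fc)
  have h3 : |C - D| * (1 + C) ≤ 108 / 100 * (1 - C) ^ 2 := by
    rcases le_total D C with h | h
    · rw [abs_of_nonneg (by linarith)]
      nlinarith
    · rw [abs_of_nonpos (by linarith)]
      nlinarith [sq_nonneg (C - (1 + D) / 4)]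
  have h4 := Real.log_le_log (by positivity) h3
  have q5 : 0 < (1 - C) ^ 2 := by positivity
  rw [Real.log_mul (x := 108 / 100) (by norm_num) q5.ne'] at h4
  have h5 := Real.log_le_sub_one_of_pos (show (0:ℝ) < 108 / 100 by norm_num)
  rw [q4]
  linarith

lemma KK_le {a b c : ℝ} (hab : a ≤ b) (h : ∀ᵐ t : ℝ, t ∈ Set.Icc a b → kk fc t ≤ c) :
    KK fc b ≤ KK fc a + c * (b - a) := by
  have h1 := KK_sub fc a b
  have h2 : ∫ t in a..b, kk fc t ≤ ∫ _ in a..b, c := by
    apply intervalIntegral.integral_mono_ae_restrict hab (kk_int _ _ _) intervalIntegrable_const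
    rw [Filter.EventuallyLE, ae_restrict_iff' measurableSet_Icc]
    exact h
  rw [intervalIntegral.integral_const, smul_eq_mul] at h2
  linarith

lemma le_KK {a b c : ℝ} (hab : a ≤ b) (h : ∀ᵐ t : ℝ, t ∈ Set.Icc a b → c ≤ kk fc t) :
    KK fc a + c * (b - a) ≤ KK fc b := by
  have h1 := KK_sub fc a b
  have h2 : ∫ _ in a..b, c ≤ ∫ t in a..b, kk fc t := by
    apply intervalIntegral.integral_mono_ae_restrict hab intervalIntegrable_const (kk_int _ _ _)
    rw [Filter.EventuallyLE, ae_restrict_iff' measurableSet_Icc]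
    exact h
  rw [intervalIntegral.integral_const, smul_eq_mul] at h2
  linarith

lemma KK_max {e : ℝ} (h0 : 0 ≤ e) (h1 : e ≤ π / 2) :
    KK fc e ≤ KK fc (465 / 1000) + 4 / 10000 := by
  rcases le_total e (465 / 1000) with h | h
  · have := le_KK (c := 0) h (by
      filter_upwards [kk_B] with t ht h2
      exact ht ⟨h0.trans h2.1, h2.2⟩)
    linarith
  · rcases le_total e (47 / 100) with h' | h'
    · have := KK_le (c := 8 / 100) h (by
        filter_upwards [kk_C] with t ht h2
        exact ht ⟨h2.1, h2.2.trans h1⟩)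
      nlinarith
    · have h3 := KK_le (a := 465 / 1000) (b := 47 / 100) (c := 8 / 100) (by norm_num) (by
        filter_upwards [kk_C] with t ht h2
        exact ht ⟨h2.1, (h2.2.trans h').trans h1⟩)
      have h4 := KK_le (c := 0) h' (by
        filter_upwards [kk_A] with t ht h2
        exact ht ⟨h2.1, h2.2.trans h1⟩)
      linarith

lemma log1 : -(766 / 1000) ≤ Real.log (465 / 1000) := by
  have h1 : Real.log (1000 / 465) ≤ 766 / 1000 := by
    rw [Real.log_le_iff_le_exp (by norm_num)]
    have h2 := Real.sum_le_exp_of_nonneg (x := 766 / 1000) (by norm_num) 8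
    refine le_trans ?_ h2
    simp only [Finset.sum_range_succ, Finset.sum_range_zero, Nat.factorial]
    norm_num
  rw [show (1000 / 465 : ℝ) = (465 / 1000)⁻¹ by norm_num, Real.log_inv] at h1
  linarith

lemma log2 : -(276 / 100) ≤ Real.log (636 / 10000) := by
  have h1 : Real.log (10000 / 636) ≤ 276 / 100 := by
    rw [Real.log_le_iff_le_exp (by norm_num)]
    have h2 := Real.sum_le_exp_of_nonneg (x := 276 / 100) (by norm_num) 14
    refine le_trans ?_ h2
    simp only [Finset.sum_range_succ, Finset.sum_range_zero, Nat.factorial]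
    norm_num
  rw [show (10000 / 636 : ℝ) = (636 / 10000)⁻¹ by norm_num, Real.log_inv] at h1
  linarith

lemma KK_num : KK fc (465 / 1000) ≤ 2459 / 1000 := by
  rw [KK_eq]
  have hπ := Real.pi_gt_three
  have e1 : fc - 465 / 1000 = 636 / 10000 := by unfold fc; norm_num
  have e2 : 465 / 1000 + fc = 9936 / 10000 := by unfold fc; norm_num
  rw [e1, e2]
  have a1 := lob_upper (x := 465 / 1000) (by norm_num) (by norm_num)
  have a2 := le_lob (x := 2 * (465 / 1000)) (by norm_num) (by linarith)
  have a3 := lob_upper (x := 636 / 10000) (by norm_num) (by norm_num)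
  have a4 := le_lob (x := 9936 / 10000) (by norm_num) (by linarith)
  rw [Real.log_mul two_ne_zero (by norm_num)] at a2
  have b1 := log1
  have b2 := log2
  have b3 := Real.log_le_sub_one_of_pos (show (0:ℝ) < 9936 / 10000 by norm_num)
  norm_num at a1 a2 a3 a4 b3 ⊢
  norm_num at b1 b2
  linarith

/-- RHOA -/
theorem rhoa : Pool.Agent.Y472.S_RHOA := by
  intro δ x h0 h1 hx hx'
  have hπ := Real.pi_pos
  have hπ3 := Real.pi_gt_d4
  have hπ4 := Real.pi_lt_d4
  have hx0 := abs_nonneg x
  -- `bb`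
  have hb : 0 ≤ bb δ 0 := by
    rw [bb_FF]
    exact div_nonneg (FF_nonneg (by nlinarith) (by nlinarith) (by positivity) (by linarith)) hπ.le
  rw [max_eq_left hb, rh_abs, bb_FF, zero_div, zero_add]
  have hmono : FF (π - π * δ) (π / 2 - fc) ≤ FF (π - π * δ) (|x| / 2) := by
    apply FF_mono (by nlinarith) (by nlinarith) _ _ (by linarith)
    · unfold fc; linarith
    · unfold fc; linarith
  set e := π / 2 - π * δ with he
  have he0 : 0 ≤ e := by nlinarith
  have he1 : e ≤ π / 2 := by nlinarith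
  have hmax := KK_max he0 he1
  have hnum := KK_num
  have key : 2 * FF (π - π * δ) (π / 2) - FF (π - π * δ) (π / 2 - fc) = KK fc e := by
    have ha : π - π * δ = π / 2 + e := by rw [he]; ring
    rw [ha]
    unfold FF KK
    have l1 : lob (π / 2 + e + π / 2) = lob e := by
      rw [show π / 2 + e + π / 2 = e + π by ring, lob_per]
    have l2 : lob (π / 2 + e - π / 2) = lob e := by
      rw [show π / 2 + e - π / 2 = e by ring]
    have l3 : lob (π / 2 + e + (π / 2 - fc)) = -lob (fc - e) := by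
      rw [show π / 2 + e + (π / 2 - fc) = -(fc - e) + π by ring, lob_per, lob_neg]
    have l4 : lob (π / 2 + e - (π / 2 - fc)) = lob (e + fc) := by
      rw [show π / 2 + e - (π / 2 - fc) = e + fc by ring]
    rw [l1, l2, l3, l4, add_comm (π / 2) e]
    ring
  have h5 : 2 * (FF (π - π * δ) (π / 2) / π) - FF (π - π * δ) (|x| / 2) / π ≤ KK fc e / π := by
    rw [← key, sub_div, mul_div_assoc]
    have := div_le_div_of_nonneg_right hmono hπ.le
    linarith
  refine h5.trans ?_
  rw [div_le_iff₀ hπ]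
  linarith

end Pool.Agent.Y252.CG
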