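import Pool.Agent.Y105.CB.Rho
import Pool.Agent.W259.Nona.Taylor

/-!
# Closed 3-braids (project CB3 of helper472): numerical bounds of Lobachevsky's function
-/

set_option autoImplicit false

namespace Pool.Agent.Y252.CG

open Filter Finset Topology MeasureTheory GapVol EvenVol EvenVol.LobIneq
open Pool.Agent.W711.HT Pool.Agent.W688.HT Pool.Agent.Y472 Pool.Agent.Y105.CB
open Pool.Agent.W259.Nona (cos_le_T4 cos_ge_T6)
open scoped Real

theorem lob_hasDeriv {x : ℝ} (hx : Real.sin x ≠ 0) : HasDerivAt lob (g x) x := by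
  have hc : ContinuousAt g x := by
    have h1 : ContinuousAt (fun t => Real.log (2 * Real.sin t)) x :=
      ContinuousAt.log (by fun_prop) (mul_ne_zero two_ne_zero hx)
    exact h1.neg
  have hfun : lob = fun y => ∫ t in (0:ℝ)..y, g t := by
    funext y; exact lob_eq y
  rw [hfun]
  refine intervalIntegral.integral_hasDerivAt_right (g_int 0 x) ?_ hc
  have hm : Measurable g := by
    unfold g
    exact (Real.measurable_log.comp (by fun_prop)).neg
  exact hm.stronglyMeasurable.stronglyMeasurableAtFilter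

/-- a function which is `0` at `0` with non-negative derivative on `(0, X)` -/
lemma nonneg_of_deriv {f f' : ℝ → ℝ} {X : ℝ} (h0 : f 0 = 0) (hc : ContinuousOn f (Set.Icc 0 X))
    (hd : ∀ x, 0 < x → x < X → HasDerivAt f (f' x) x) (hn : ∀ x, 0 < x → x < X → 0 ≤ f' x)
    {x : ℝ} (hx0 : 0 ≤ x) (hx : x ≤ X) : 0 ≤ f x := by
  have hmono : MonotoneOn f (Set.Icc 0 X) := by
    apply monotoneOn_of_deriv_nonneg (convex_Icc 0 X) hc
    · intro y hy
      rw [interior_Icc] at hy ⊢
      exact (hd y hy.1 hy.2).differentiableAt.differentiableWithinAt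
    · intro y hy
      rw [interior_Icc] at hy
      rw [(hd y hy.1 hy.2).deriv]
      exact hn y hy.1 hy.2
  have := hmono (Set.mem_Icc.2 ⟨le_rfl, hx0.trans hx⟩) (Set.mem_Icc.2 ⟨hx0, hx⟩) hx0
  rwa [h0] at this

/-- `x cos x ≤ sin x` -/
lemma xcos_le {x : ℝ} (h0 : 0 ≤ x) (h1 : x ≤ π) : x * Real.cos x ≤ Real.sin x := by
  have h := nonneg_of_deriv (f := fun x => Real.sin x - x * Real.cos x)
    (f' := fun x => x * Real.sin x) (X := π) (by simp) (by fun_prop)
    (fun x _ _ => by
      have := (Real.hasDerivAt_sin x).sub ((hasDerivAt_id x).mul (Real.hasDerivAt_cos x))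
      exact this.congr_deriv (by simp))
    (fun x h0 h1 => mul_nonneg h0.le (Real.sin_pos_of_pos_of_lt_pi h0 h1).le) h0 h1
  linarith

/-- `x cos x ≤ sin x (1 - x^2/3)` -/
lemma cot_lower {x : ℝ} (h0 : 0 ≤ x) (h1 : x ≤ π) :
    x * Real.cos x ≤ Real.sin x * (1 - x ^ 2 / 3) := by
  have h := nonneg_of_deriv (f := fun x => Real.sin x * (1 - x ^ 2 / 3) - x * Real.cos x)
    (f' := fun x => x / 3 * (Real.sin x - x * Real.cos x)) (X := π) (by simp) (by fun_prop)
    (fun x _ _ => by
      have := ((Real.hasDerivAt_sin x).mul ((hasDerivAt_const x (1:ℝ)).sub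
        ((hasDerivAt_pow 2 x).div_const 3))).sub ((hasDerivAt_id x).mul (Real.hasDerivAt_cos x))
      exact this.congr_deriv (by simp; ring))
    (fun x h0 h1 => mul_nonneg (by positivity) (by linarith [xcos_le h0.le h1.le])) h0 h1
  linarith

/-- `sin x (2/5 + 3x²/40) ≤ (21/40) x cos x` for small `x` -/
lemma aux1 {x : ℝ} (h0 : 0 ≤ x) (h1 : x ≤ 3 / 5) :
    Real.sin x * (2 / 5 + 3 * x ^ 2 / 40) ≤ 21 / 40 * (x * Real.cos x) := by
  have h2 : Real.sin x ≤ x := Real.sin_le h0
  have h3 := Real.one_sub_sq_div_two_le_cos (x := x)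
  have h4 : x ^ 2 ≤ (3 / 5) ^ 2 := pow_le_pow_left₀ h0 h1 2
  calc Real.sin x * (2 / 5 + 3 * x ^ 2 / 40) ≤ x * (2 / 5 + 3 * x ^ 2 / 40) := by gcongr
    _ ≤ x * (21 / 40 * (1 - x ^ 2 / 2)) := by
        apply mul_le_mul_of_nonneg_left _ h0
        nlinarith
    _ ≤ x * (21 / 40 * Real.cos x) := by gcongr
    _ = _ := by ring

/-- `sin x (1 - 3x²/10) ≤ cos x (x + 3x³/40)` for small `x` -/
lemma aux2 {x : ℝ} (h0 : 0 ≤ x) (h1 : x ≤ 3 / 5) :
    Real.sin x * (1 - 3 * x ^ 2 / 10) ≤ Real.cos x * (x + 3 * x ^ 3 / 40) := by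
  have h := nonneg_of_deriv
    (f := fun x => Real.cos x * (x + 3 * x ^ 3 / 40) - Real.sin x * (1 - 3 * x ^ 2 / 10))
    (f' := fun x => x * (21 / 40 * (x * Real.cos x) - Real.sin x * (2 / 5 + 3 * x ^ 2 / 40)))
    (X := 3 / 5) (by simp) (by fun_prop)
    (fun x _ _ => by
      have h5 := ((Real.hasDerivAt_cos x).mul ((hasDerivAt_id x).add
        (((hasDerivAt_pow 3 x).const_mul 3).div_const 40)))
      have h6 := ((Real.hasDerivAt_sin x).mul ((hasDerivAt_const x (1:ℝ)).sub
        (((hasDerivAt_pow 2 x).const_mul 3).div_const 10)))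
      exact (h5.sub h6).congr_deriv (by simp; ring))
    (fun x h0 h1 => mul_nonneg h0.le (by linarith [aux1 h0.le h1.le])) h0 h1
  linarith

/-- `sin x (1 - x²/3 - x⁴/40) ≤ x cos x` for small `x` -/
lemma cot_upper {x : ℝ} (h0 : 0 ≤ x) (h1 : x ≤ 3 / 5) :
    Real.sin x * (1 - x ^ 2 / 3 - x ^ 4 / 40) ≤ x * Real.cos x := by
  have h := nonneg_of_deriv
    (f := fun x => x * Real.cos x - Real.sin x * (1 - x ^ 2 / 3 - x ^ 4 / 40))
    (f' := fun x => x / 3 * (Real.cos x * (x + 3 * x ^ 3 / 40) -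
      Real.sin x * (1 - 3 * x ^ 2 / 10)))
    (X := 3 / 5) (by simp) (by fun_prop)
    (fun x _ _ => by
      have h5 := (hasDerivAt_id x).mul (Real.hasDerivAt_cos x)
      have h6 := ((Real.hasDerivAt_sin x).mul (((hasDerivAt_const x (1:ℝ)).sub
        ((hasDerivAt_pow 2 x).div_const 3)).sub ((hasDerivAt_pow 4 x).div_const 40)))
      exact (h5.sub h6).congr_deriv (by simp; ring))
    (fun x h0 h1 => mul_nonneg (by positivity) (by linarith [aux2 h0.le h1.le])) h0 h1
  linarith

lemma sinc_pos {x : ℝ} (h0 : 0 ≤ x) (h1 : x < π) : 0 < Real.sinc x := by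
  rcases h0.eq_or_lt with h | h
  · rw [← h, Real.sinc_zero]; norm_num
  · rw [Real.sinc_of_ne_zero h.ne']
    exact div_pos (Real.sin_pos_of_pos_of_lt_pi h h1) h

lemma logsinc_eq {x : ℝ} (h0 : 0 < x) (h1 : x < π) :
    Real.log (Real.sinc x) = Real.log (Real.sin x) - Real.log x := by
  rw [Real.sinc_of_ne_zero h0.ne', Real.log_div (Real.sin_pos_of_pos_of_lt_pi h0 h1).ne' h0.ne']

lemma logsinc_deriv {x : ℝ} (h0 : 0 < x) (h1 : x < π) :
    HasDerivAt (fun x => Real.log (Real.sinc x)) (Real.cos x / Real.sin x - 1 / x) x := by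
  have hs := (Real.sin_pos_of_pos_of_lt_pi h0 h1).ne'
  have h2 := ((Real.hasDerivAt_sin x).log hs).sub (Real.hasDerivAt_log h0.ne')
  refine (h2.congr_of_eventuallyEq ?_).congr_deriv (by rw [one_div])
  filter_upwards [Ioo_mem_nhds h0 h1] with y hy
  exact logsinc_eq hy.1 hy.2

lemma logsinc_cont {X : ℝ} (hX : X < π) :
    ContinuousOn (fun x => Real.log (Real.sinc x)) (Set.Icc 0 X) := by
  apply ContinuousOn.log Real.continuous_sinc.continuousOn
  intro x hx
  exact (sinc_pos hx.1 (hx.2.trans_lt hX)).ne'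

/-- `log (sin x / x) ≤ -x²/6` -/
lemma logsinc_le {x : ℝ} (h0 : 0 ≤ x) (h1 : x < π) : Real.log (Real.sinc x) ≤ -(x ^ 2 / 6) := by
  have h := nonneg_of_deriv (f := fun x => -(x ^ 2 / 6) - Real.log (Real.sinc x))
    (f' := fun x => -(x / 3) - (Real.cos x / Real.sin x - 1 / x)) (X := x) (by simp)
    (ContinuousOn.sub (by fun_prop) (logsinc_cont h1))
    (fun y hy hy1 => by
      have h5 := ((hasDerivAt_pow 2 y).div_const 6).neg
      exact (h5.sub (logsinc_deriv hy (hy1.trans h1))).congr_deriv (by simp; ring))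
    (fun y hy hy1 => by
      have hs := Real.sin_pos_of_pos_of_lt_pi hy (hy1.trans h1)
      have := cot_lower hy.le (hy1.trans h1).le
      have h6 : -(y / 3) - (Real.cos y / Real.sin y - 1 / y) =
          (Real.sin y * (1 - y ^ 2 / 3) - y * Real.cos y) / (y * Real.sin y) := by
        field_simp
        ring
      rw [h6]
      exact div_nonneg (by linarith) (by positivity)) h0 le_rfl
  linarith

/-- `-x²/6 - x⁴/160 ≤ log (sin x / x)` for small `x` -/
lemma le_logsinc {x : ℝ} (h0 : 0 ≤ x) (h1 : x ≤ 3 / 5) :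
    -(x ^ 2 / 6) - x ^ 4 / 160 ≤ Real.log (Real.sinc x) := by
  have hπ := Real.pi_gt_three
  have h := nonneg_of_deriv
    (f := fun x => Real.log (Real.sinc x) + (x ^ 2 / 6 + x ^ 4 / 160))
    (f' := fun x => (Real.cos x / Real.sin x - 1 / x) + (x / 3 + x ^ 3 / 40)) (X := 3 / 5)
    (by simp) (ContinuousOn.add (logsinc_cont (by linarith)) (by fun_prop))
    (fun y hy hy1 => by
      have h5 := ((hasDerivAt_pow 2 y).div_const 6).add ((hasDerivAt_pow 4 y).div_const 160)
      exact ((logsinc_deriv hy (by linarith)).add h5).congr_deriv (by simp; ring))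
    (fun y hy hy1 => by
      have hs := Real.sin_pos_of_pos_of_lt_pi hy (by linarith)
      have := cot_upper hy.le hy1.le
      have h6 : (Real.cos y / Real.sin y - 1 / y) + (y / 3 + y ^ 3 / 40) =
          (y * Real.cos y - Real.sin y * (1 - y ^ 2 / 3 - y ^ 4 / 40)) / (y * Real.sin y) := by
        field_simp
        ring
      rw [h6]
      exact div_nonneg (by linarith) (by positivity)) h0 h1
  linarith

lemma g_logsinc {x : ℝ} (h0 : 0 < x) (h1 : x < π) :
    g x = -Real.log 2 - Real.log x - Real.log (Real.sinc x) := by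
  have hs := Real.sin_pos_of_pos_of_lt_pi h0 h1
  rw [logsinc_eq h0 h1]
  unfold g
  rw [Real.log_mul two_ne_zero hs.ne']
  ring

lemma hasDeriv_main {x : ℝ} (h0 : 0 < x) :
    HasDerivAt (fun x : ℝ => x - x * Real.log 2 - x * Real.log x) (-Real.log 2 - Real.log x) x := by
  have h1 := ((hasDerivAt_id x).sub ((hasDerivAt_id x).mul_const (Real.log 2))).sub
    (Real.hasDerivAt_mul_log h0.ne')
  exact h1.congr_deriv (by ring)

/-- lower bound of Lobachevsky's function -/
lemma le_lob {x : ℝ} (h0 : 0 ≤ x) (h1 : x < π) :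
    x - x * Real.log 2 - x * Real.log x + x ^ 3 / 18 ≤ lob x := by
  have h := nonneg_of_deriv
    (f := fun x => lob x - ((x - x * Real.log 2 - x * Real.log x) + x ^ 3 / 18))
    (f' := fun x => g x - ((-Real.log 2 - Real.log x) + x ^ 2 / 6)) (X := x)
    (by simp [lob_zero'])
    (by
      apply ContinuousOn.sub lob_cont.continuousOn
      apply Continuous.continuousOn
      have := Real.continuous_mul_log
      fun_prop)
    (fun y hy hy1 => by
      have h5 := (hasDeriv_main hy).add ((hasDerivAt_pow 3 y).div_const 18)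
      exact ((lob_hasDeriv (Real.sin_pos_of_pos_of_lt_pi hy (hy1.trans h1)).ne').sub h5).congr_deriv
        (by simp; ring))
    (fun y hy hy1 => by
      rw [g_logsinc hy (hy1.trans h1)]
      have := logsinc_le hy.le (hy1.trans h1)
      linarith) h0 le_rfl
  linarith

/-- upper bound of Lobachevsky's function -/
lemma lob_upper {x : ℝ} (h0 : 0 ≤ x) (h1 : x ≤ 3 / 5) :
    lob x ≤ x - x * Real.log 2 - x * Real.log x + x ^ 3 / 18 + x ^ 5 / 800 := by
  have hπ := Real.pi_gt_three
  have h := nonneg_of_deriv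
    (f := fun x => ((x - x * Real.log 2 - x * Real.log x) + x ^ 3 / 18 + x ^ 5 / 800) - lob x)
    (f' := fun x => ((-Real.log 2 - Real.log x) + x ^ 2 / 6 + x ^ 4 / 160) - g x) (X := 3 / 5)
    (by simp [lob_zero'])
    (by
      apply ContinuousOn.sub _ lob_cont.continuousOn
      apply Continuous.continuousOn
      have := Real.continuous_mul_log
      fun_prop)
    (fun y hy hy1 => by
      have h5 := ((hasDeriv_main hy).add ((hasDerivAt_pow 3 y).div_const 18)).add
        ((hasDerivAt_pow 5 y).div_const 800)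
      exact (h5.sub (lob_hasDeriv (Real.sin_pos_of_pos_of_lt_pi hy (by linarith)).ne')).congr_deriv
        (by simp; ring))
    (fun y hy hy1 => by
      rw [g_logsinc hy (by linarith)]
      have := le_logsinc hy.le hy1.le
      linarith) h0 h1
  linarith

end Pool.Agent.Y252.CG
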